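import Pool.Agent.H4R2.LO.Main

/-! Definitions for the uniform Anderson model and transport of localization statements from the
normalised potential (helper663). Copied in part from the results of the starting point. -/

set_option autoImplicit false

open scoped BigOperators ENNReal
open MeasureTheory

namespace Pool.Agent.Y663.Tr

/-- the uniform law on `[-c, c]` -/
noncomputable def unif (c : ℝ) : Measure ℝ :=
  ENNReal.ofReal (1 / (2 * c)) • volume.restrict (Set.Icc (-c) c)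

/-- `(Δ_ω u)(j) = -∑_{|n|=1} (u(j+n) - u(j)) + ω_j u(j)` -/
noncomputable def H {d : ℕ} (ω : (Fin d → ℤ) → ℝ) (u : (Fin d → ℤ) → ℂ) (j : Fin d → ℤ) : ℂ :=
  -∑ i : Fin d, ((u (j + Pi.single i 1) - u j) + (u (j - Pi.single i 1) - u j)) + (ω j : ℂ) * u j

/-- square summable functions -/
def SqSummable {d : ℕ} (u : (Fin d → ℤ) → ℂ) : Prop := Summable fun x => ‖u x‖ ^ 2

/-- spectral measure of the vector `g` -/
def IsSpectralMeasure {d : ℕ} (A : ((Fin d → ℤ) → ℂ) → (Fin d → ℤ) → ℂ) (g : (Fin d → ℤ) → ℂ)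
    (μ : Measure ℝ) : Prop :=
  IsFiniteMeasure μ ∧ ∀ z : ℂ, z.im ≠ 0 → ∃ u : (Fin d → ℤ) → ℂ, SqSummable u ∧
    (∀ x, A u x - z * u x = g x) ∧ ∫ E : ℝ, ((E : ℂ) - z)⁻¹ ∂μ = ∑' x, (starRingEnd ℂ) (g x) * u x

/-- exponential localization of the operator `A` at the energies in `S`, with rate `m` -/
def Localized {d : ℕ} (A : ((Fin d → ℤ) → ℂ) → (Fin d → ℤ) → ℂ) (S : Set ℝ) (m : ℝ) : Prop :=
  (∀ E ∈ S, ∀ ψ : (Fin d → ℤ) → ℂ, (∃ (C : ℝ) (n : ℕ), ∀ x, ‖ψ x‖ ≤ C * (1 + ‖x‖) ^ n) →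
    (∀ x, A ψ x = (E : ℂ) * ψ x) → ∃ C : ℝ, ∀ x, ‖ψ x‖ ≤ C * Real.exp (-(m * ‖x‖))) ∧
  ∃ N : Set ℝ, N.Countable ∧ ∀ (g : (Fin d → ℤ) → ℂ) (μ : Measure ℝ), SqSummable g →
    IsSpectralMeasure A g μ → μ (S \ N) = 0

/-- the discrete torus `(ℤ/L)^d` -/
abbrev T (d L : ℕ) : Type := Fin d → ZMod L

/-- `Δ_ω` on the torus -/
noncomputable def HT {d L : ℕ} (ω f : T d L → ℝ) (x : T d L) : ℝ :=
  -∑ i : Fin d, ((f (x + Pi.single i 1) - f x) + (f (x - Pi.single i 1) - f x)) + ω x * f x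

/-- flat ground state with energy close to `Es` -/
def FlatAt {d L : ℕ} (η K Es : ℝ) (ω : T d L → ℝ) : Prop :=
  ∃ (E : ℝ) (ψ : T d L → ℝ), |E - Es| ≤ K / (L : ℝ) ^ 2 ∧ (∀ x, 1 ≤ ψ x ∧ ψ x ≤ 1 + η) ∧
    ∀ x, HT ω ψ x = E * ψ x

theorem unif_prob (c : ℝ) (hc : 0 < c) : IsProbabilityMeasure (unif c) := by
  constructor
  unfold unif
  rw [Measure.smul_apply, Measure.restrict_apply MeasurableSet.univ, Set.univ_inter,
    Real.volume_Icc, smul_eq_mul, ← ENNReal.ofReal_mul (by positivity)]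
  have : 1 / (2 * c) * (c - -c) = 1 := by
    field_simp
    ring
  rw [this, ENNReal.ofReal_one]

theorem unif_scale (c : ℝ) (hc : 0 < c) : (unif 1).map (fun t => c * t) = unif c := by
  have hm : MeasurableEmbedding (fun t : ℝ => c * t) :=
    (Homeomorph.mulLeft₀ c hc.ne').measurableEmbedding
  ext S hS
  rw [Measure.map_apply hm.measurable hS]
  unfold unif
  rw [Measure.smul_apply, Measure.smul_apply, Measure.restrict_apply (hm.measurable hS),
    Measure.restrict_apply hS, smul_eq_mul, smul_eq_mul]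
  have h1 : (fun t : ℝ => c * t) ⁻¹' S ∩ Set.Icc (-1) 1 =
      (fun t : ℝ => c * t) ⁻¹' (S ∩ Set.Icc (-c) c) := by
    ext t
    simp only [Set.mem_inter_iff, Set.mem_preimage, Set.mem_Icc]
    refine and_congr_right fun _ => ⟨fun h => ⟨by nlinarith [h.1], by nlinarith [h.2]⟩,
      fun h => ⟨?_, ?_⟩⟩
    · have := h.1
      by_contra h2
      push Not at h2
      nlinarith
    · have := h.2
      by_contra h2
      push Not at h2
      nlinarith
  rw [h1, Real.volume_preimage_mul_left hc.ne', ← mul_assoc, ← ENNReal.ofReal_mul (by norm_num),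
    abs_of_pos (inv_pos.2 hc)]
  congr 2
  field_simp

theorem unif_neg (c : ℝ) : (unif c).map (fun t => -t) = unif c := by
  ext S hS
  rw [Measure.map_apply measurable_neg hS]
  unfold unif
  rw [Measure.smul_apply, Measure.smul_apply, Measure.restrict_apply (measurable_neg hS),
    Measure.restrict_apply hS, smul_eq_mul, smul_eq_mul]
  have h1 : (fun t : ℝ => -t) ⁻¹' S ∩ Set.Icc (-c) c = -(S ∩ Set.Icc (-c) c) := by
    ext t
    simp only [Set.mem_inter_iff, Set.mem_preimage, Set.mem_Icc, Set.mem_neg]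
    refine and_congr_right fun _ => ⟨fun h => ⟨by linarith [h.2], by linarith [h.1]⟩,
      fun h => ⟨by linarith [h.2], by linarith [h.1]⟩⟩
  rw [h1, Measure.measure_neg]

theorem unif_supp : unif 1 (Set.Icc (-1) 1)ᶜ = 0 := by
  unfold unif
  rw [Measure.smul_apply, Measure.restrict_apply (measurableSet_Icc.compl)]
  simp

theorem unif_dens : unif 1 ≤ ENNReal.ofReal 1 • (volume : Measure ℝ) := by
  rw [Measure.le_iff]
  intro S hS
  unfold unif
  rw [Measure.smul_apply, Measure.smul_apply, smul_eq_mul, smul_eq_mul]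
  exact mul_le_mul' (ENNReal.ofReal_le_ofReal (by norm_num)) (Measure.restrict_apply_le _ _)

theorem unif_reg : Pool.Agent.H4R2.LO.Reg (1 + 4 * 1 ^ 2) (unif 1) := by
  have := unif_prob 1 one_pos
  exact Pool.Agent.H4R2.LO.Lw.reg_bdd (unif 1) 1 one_pos unif_supp unif_dens

theorem law_map (d : ℕ) (μ ν : Measure ℝ) [IsProbabilityMeasure μ] (f : ℝ → ℝ)
    (hf : Measurable f) (h : μ.map f = ν) :
    (Measure.infinitePi fun _ : Fin d → ℤ => μ).map (fun ω x => f (ω x)) =
      Measure.infinitePi fun _ : Fin d → ℤ => ν := by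
  have h1 := Measure.infinitePi_map_pi (μ := fun _ : Fin d → ℤ => μ)
    (f := fun _ (s : ℝ) => f s) (fun _ => hf)
  rw [h] at h1
  exact h1

theorem lawT_map (d L : ℕ) [NeZero L] (μ ν : Measure ℝ) [IsProbabilityMeasure μ]
    [IsProbabilityMeasure ν] (f : ℝ → ℝ)
    (hf : Measurable f) (h : μ.map f = ν) :
    (Measure.pi fun _ : T d L => μ).map (fun ω x => f (ω x)) =
      Measure.pi fun _ : T d L => ν := by
  rw [← Measure.infinitePi_eq_pi, ← Measure.infinitePi_eq_pi]
  have h1 := Measure.infinitePi_map_pi (μ := fun _ : T d L => μ)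
    (f := fun _ (s : ℝ) => f s) (fun _ => hf)
  rw [h] at h1
  exact h1

theorem H_eq {d : ℕ} (ω : (Fin d → ℤ) → ℝ) :
    H ω = Pool.Agent.H4R2.LO.Hg (-1) (fun x => ω x + 2 * d) := by
  funext u x
  unfold H Pool.Agent.H4R2.LO.Hg
  have h : ∑ i : Fin d, ((u (x + Pi.single i 1) - u x) + (u (x - Pi.single i 1) - u x)) =
      ∑ i : Fin d, (u (x + Pi.single i 1) + u (x - Pi.single i 1)) - 2 * (d : ℂ) * u x := by
    rw [Finset.sum_add_distrib, Finset.sum_sub_distrib, Finset.sum_sub_distrib,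
      Finset.sum_add_distrib]
    simp
    ring
  rw [h]
  push_cast
  ring

theorem HT_eq {d L : ℕ} (c : ℝ) (V f : T d L → ℝ) (x : T d L) :
    HT (fun y => c * V y) f x = Pool.Agent.H4R2.AE.Hop c V f x := by
  unfold HT Pool.Agent.H4R2.AE.Hop
  rw [← Finset.sum_neg_distrib]
  congr 1
  exact Finset.sum_congr rfl fun i _ => by ring

theorem localized_of {d : ℕ} (ω : (Fin d → ℤ) → ℝ) (S : Set ℝ) (m : ℝ) (hm : 0 < m)
    (h : Pool.Agent.H4R2.LO.Main.Dec d (-1) (fun x => ω x + 2 * d) S m) :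
    Localized (H ω) S m := by
  rw [H_eq]
  exact ⟨h, Pool.Agent.H4R2.LO.Main.pure_point (-1) (fun x => ω x + 2 * d) S m hm h⟩

/-- from the normalised potential to the uniform law on `[-c, c]`, both band edges -/
theorem transport (d : ℕ) (c : ℝ) (hc : 0 < c) (e m : ℝ) (hm : 0 < m)
    (h : ∀ᵐ ω ∂(Measure.infinitePi fun _ : Fin d → ℤ => unif 1),
      Pool.Agent.H4R2.LO.Main.Dec d (-1) (fun x => c * ω x) (Set.Iic (e - 2 * d)) m) :
    ∀ᵐ ω ∂(Measure.infinitePi fun _ : Fin d → ℤ => unif c),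
      Localized (H ω) {E | E ≤ e ∨ 4 * d - e ≤ E} m := by
  have hP1 : IsProbabilityMeasure (unif 1) := unif_prob 1 one_pos
  have hPc : IsProbabilityMeasure (unif c) := unif_prob c hc
  have hA : ∀ᵐ ω ∂(Measure.infinitePi fun _ : Fin d → ℤ => unif c),
      Pool.Agent.H4R2.LO.Main.Dec d (-1) ω (Set.Iic (e - 2 * d)) m := by
    have h2 := law_map d (unif 1) (unif c) (fun t => c * t) (by fun_prop) (unif_scale c hc)
    rw [← h2]
    have hemb : MeasurableEmbedding (fun (ω : (Fin d → ℤ) → ℝ) x => c * ω x) :=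
      (Homeomorph.piCongrRight fun _ => Homeomorph.mulLeft₀ c hc.ne').measurableEmbedding
    rw [hemb.ae_map_iff]
    exact h
  have hB : ∀ᵐ ω ∂(Measure.infinitePi fun _ : Fin d → ℤ => unif c),
      Pool.Agent.H4R2.LO.Main.Dec d (-1) (fun x => -ω x) (Set.Iic (e - 2 * d)) m := by
    have h2 := law_map d (unif c) (unif c) (fun t => -t) (by fun_prop) (unif_neg c)
    have h3 := hA
    rw [← h2] at h3
    have hm2 : Measurable (fun (ω : (Fin d → ℤ) → ℝ) x => -ω x) := by fun_prop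
    exact ae_of_ae_map hm2.aemeasurable h3
  filter_upwards [hA, hB] with ω hω hω'
  apply localized_of ω _ m hm
  have e1 := Pool.Agent.H4R2.LO.Main.dec_shift (-1) (2 * d) _ _ m hω
  have e0 := Pool.Agent.H4R2.LO.Main.dec_stag _ _ _ m hω'
  rw [neg_neg] at e0
  have e2 := Pool.Agent.H4R2.LO.Main.dec_shift (-1) (2 * d) _ _ m
    (Pool.Agent.H4R2.LO.Main.dec_neg 1 _ _ m e0)
  simp only [neg_neg] at e2
  refine Pool.Agent.H4R2.LO.Main.dec_mono _ _ _ _ _ _
    (Pool.Agent.H4R2.LO.Main.dec_union _ _ _ _ m e1 e2) ?_ le_rfl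
  rintro E (hE | hE)
  · left
    simp only [Set.mem_setOf_eq, Set.mem_Iic]
    linarith
  · right
    simp only [Set.mem_setOf_eq, Set.mem_Iic]
    linarith

/-- transport of good sets on the torus -/
theorem transportT (d L : ℕ) [NeZero L] (c : ℝ) (hc : 0 < c) (G : Set (T d L → ℝ))
    (hG : MeasurableSet G) : ∃ G' : Set (T d L → ℝ), MeasurableSet G' ∧
      (Measure.pi fun _ : T d L => unif c).real G' = (Measure.pi fun _ : T d L => unif 1).real G ∧
      ∀ ω ∈ G', ∃ V ∈ G, ω = fun y => c * V y := by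
  have hP1 : IsProbabilityMeasure (unif 1) := unif_prob 1 one_pos
  have hPc : IsProbabilityMeasure (unif c) := unif_prob c hc
  have hm : Measurable (fun (ω : T d L → ℝ) y => ω y / c) := by fun_prop
  refine ⟨(fun ω y => ω y / c) ⁻¹' G, hm hG, ?_, fun ω hω => ⟨fun y => ω y / c, hω, ?_⟩⟩
  · have h1 := lawT_map d L (unif 1) (unif c) (fun t => c * t) (by fun_prop) (unif_scale c hc)
    have hm2 : Measurable (fun (ω : T d L → ℝ) x => c * ω x) := by fun_prop
    rw [← h1, map_measureReal_apply hm2 (hm hG)]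
    congr 1
    ext ω
    simp only [Set.mem_preimage]
    have : (fun y => c * ω y / c) = ω := by
      funext y
      field_simp
    rw [this]
  · funext y
    field_simp

end Pool.Agent.Y663.Tr
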