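import Pool.Agent.H4R2.AE.Core2

/-! The massive logarithmic equation on the three dimensional torus: good event (helper663). -/

set_option autoImplicit false

open scoped BigOperators
open MeasureTheory

namespace Pool.Agent.Y663.Mg

open Pool.Agent.H4R2
open Pool.Agent.H4R2.AE (T LapW Hop)

/-- `ℓ²` bound from a weak `ℓ³` bound and an `ℓ¹` bound -/
theorem l2_of_weak {ι : Type} [Fintype ι] [DecidableEq ι] (a : ι → ℝ) (A S : ℝ)
    (ha : ∀ x, 0 ≤ a x) (hA : 0 < A) (hS : 0 < S)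
    (h : ∀ t : ℝ, 0 < t → ((Finset.univ.filter fun x => t ≤ a x).card : ℝ) * t ^ (3 : ℝ) ≤ A)
    (hsum : ∑ x, a x ≤ S) : ∑ x, a x ^ 2 ≤ 4 * Real.sqrt (A * S) := by
  set T : ℝ := Real.sqrt (A / S) with hT
  have hT0 : 0 < T := Real.sqrt_pos.2 (by positivity)
  have hT2 : T ^ 2 = A / S := Real.sq_sqrt (by positivity)
  have hTS : T * S = Real.sqrt (A * S) := by
    rw [← Real.sqrt_sq (by positivity : 0 ≤ T * S), mul_pow, hT2]
    congr 1
    field_simp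
  have hAT : A / T = Real.sqrt (A * S) := by
    rw [← hTS, div_eq_iff hT0.ne']
    have : T * S * T = T ^ 2 * S := by ring
    rw [this, hT2]
    field_simp
  set s := Finset.univ.filter fun x => T ≤ a x with hs
  have hsplit : ∑ x, a x ^ 2 = ∑ x ∈ s, a x ^ 2 + ∑ x ∈ Finset.univ.filter (fun x => ¬ T ≤ a x), a x ^ 2 :=
    (Finset.sum_filter_add_sum_filter_not _ _ _).symm
  have h1 : ∑ x ∈ Finset.univ.filter (fun x => ¬ T ≤ a x), a x ^ 2 ≤ T * S := by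
    calc ∑ x ∈ Finset.univ.filter (fun x => ¬ T ≤ a x), a x ^ 2
        ≤ ∑ x ∈ Finset.univ.filter (fun x => ¬ T ≤ a x), T * a x := by
          refine Finset.sum_le_sum fun x hx => ?_
          have hx' := (Finset.mem_filter.1 hx).2
          push Not at hx'
          rw [sq]
          exact mul_le_mul_of_nonneg_right hx'.le (ha x)
      _ ≤ ∑ x, T * a x := Finset.sum_le_sum_of_subset_of_nonneg (Finset.filter_subset _ _)
          fun x _ _ => mul_nonneg hT0.le (ha x)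
      _ = T * ∑ x, a x := by rw [Finset.mul_sum]
      _ ≤ T * S := mul_le_mul_of_nonneg_left hsum hT0.le
  have h2 : ∑ x ∈ s, a x ^ 2 ≤ 3 * (A / T) := by
    have h3 := AE.Layer.layer_sort a 3 A (by norm_num) ha hA.le h (fun y => y ^ 2)
      (fun x hx y hy hxy => by
        have hx' : (0 : ℝ) ≤ x := hx
        change x ^ 2 ≤ y ^ 2
        gcongr) s.card s rfl
    refine h3.trans ?_
    have h4 : ∀ j : ℕ, (fun y : ℝ => y ^ 2) ((A / ((j : ℝ) + 1)) ^ (1 / (3 : ℝ))) =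
        A ^ (2 / 3 : ℝ) * ((j : ℝ) + 1) ^ (-(2 / 3 : ℝ)) := by
      intro j
      have h0 : 0 ≤ A / ((j : ℝ) + 1) := by positivity
      change ((A / ((j : ℝ) + 1)) ^ (1 / (3 : ℝ))) ^ 2 = _
      rw [← Real.rpow_natCast, ← Real.rpow_mul h0, Real.div_rpow hA.le (by positivity),
        Real.rpow_neg (by positivity), div_eq_mul_inv]
      norm_num
    rw [Finset.sum_congr rfl fun j _ => h4 j, ← Finset.mul_sum]
    have h5 := AE.Layer.layer_l1 (2 / 3) (by norm_num) (by norm_num) s.card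
    have h6 : (s.card : ℝ) ≤ A / T ^ (3 : ℝ) := by
      rw [le_div_iff₀ (by positivity)]
      exact h T hT0
    have h7 : (s.card : ℝ) ^ (1 - 2 / 3 : ℝ) ≤ A ^ (1 / 3 : ℝ) / T := by
      calc (s.card : ℝ) ^ (1 - 2 / 3 : ℝ) ≤ (A / T ^ (3 : ℝ)) ^ (1 - 2 / 3 : ℝ) :=
            Real.rpow_le_rpow (by positivity) h6 (by norm_num)
        _ = A ^ (1 / 3 : ℝ) / T := by
            rw [Real.div_rpow hA.le (by positivity), ← Real.rpow_mul hT0.le]
            norm_num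
    calc A ^ (2 / 3 : ℝ) * ∑ j ∈ Finset.range s.card, ((j : ℝ) + 1) ^ (-(2 / 3 : ℝ))
        ≤ A ^ (2 / 3 : ℝ) * ((s.card : ℝ) ^ (1 - 2 / 3 : ℝ) / (1 - 2 / 3)) := by gcongr
      _ ≤ A ^ (2 / 3 : ℝ) * (A ^ (1 / 3 : ℝ) / T / (1 - 2 / 3)) := by
          have : (0 : ℝ) < 1 - 2 / 3 := by norm_num
          gcongr
      _ = 3 * ((A ^ (2 / 3 : ℝ) * A ^ (1 / 3 : ℝ)) / T) := by
          norm_num
          ring
      _ = 3 * (A / T) := by
          rw [← Real.rpow_add hA]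
          norm_num
  rw [hsplit]
  rw [hAT] at h2
  rw [hTS] at h1
  linarith

theorem exp_le_two (δ : ℝ) (hδ' : δ ≤ 1 / 8) : Real.exp (4 * δ) ≤ 2 := by
  have h3 : Real.exp (4 * δ) ≤ Real.exp (1 / 2) := Real.exp_le_exp.2 (by linarith)
  have h4 : Real.exp (1 / 2) ≤ 2 := by
    have h5 : Real.exp (1 / 2) ^ 2 = Real.exp 1 := by
      rw [← Real.exp_nat_mul]
      norm_num
    have h6 := Real.exp_one_lt_d9
    have h7 := Real.exp_pos (1 / 2)
    nlinarith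
  exact h3.trans h4

/-- `ℓ²` bound for massive Green functions, `d = 3` -/
theorem green3 : ∃ A : ℝ, 1 ≤ A ∧ ∀ (L : ℕ) [NeZero L] (κ δ : ℝ), 0 < κ →
    1 / (4 * (L : ℝ) ^ 2) ≤ κ → δ ≤ 1 / 8 →
    ∀ (u Gr : T 3 L → ℝ) (x0 : T 3 L), (∀ x, 1 / 2 ≤ u x) → (∀ x, 0 ≤ Gr x) →
      (∀ x, LapW u Gr x + κ * Real.exp (-(4 * δ)) * Gr x = if x = x0 then 1 else 0) →
      ∑ z, Gr z ^ 2 ≤ A / Real.sqrt κ := by
  obtain ⟨A, hA, HA⟩ := AE.Weak.weak 3 le_rfl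
  refine ⟨8 * A, by linarith, ?_⟩
  intro L _ κ δ hκ hκL hδ u Gr x0 hu hGr hh
  have hA0 : 0 < A := by linarith
  have hL := AE.Core.L_pos (L := L)
  have hexp : Real.exp (4 * δ) ≤ 2 := exp_le_two δ hδ
  have hexp' : 1 / 2 ≤ Real.exp (-(4 * δ)) := by
    rw [Real.exp_neg, ← one_div]
    exact one_div_le_one_div_of_le (Real.exp_pos _) hexp
  have hk : ∀ _ : T 3 L, 1 / (8 * (L : ℝ) ^ 2) ≤ κ * Real.exp (-(4 * δ)) := by
    intro _
    calc 1 / (8 * (L : ℝ) ^ 2) = 1 / (4 * (L : ℝ) ^ 2) * (1 / 2) := by field_simp; norm_num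
      _ ≤ _ := by gcongr
  have h1 := HA L u (fun _ => κ * Real.exp (-(4 * δ))) Gr x0 hu hk hGr hh
  have hp : ((3 : ℕ) : ℝ) / (((3 : ℕ) : ℝ) - 2) = 3 := by norm_num
  rw [hp] at h1
  have h2 : ∑ x, Gr x ≤ 2 / κ := by
    have h3 : ∑ x, (LapW u Gr x + κ * Real.exp (-(4 * δ)) * Gr x) = 1 := by
      rw [Finset.sum_congr rfl fun x _ => hh x]
      simp
    rw [Finset.sum_add_distrib, AE.Lin.sum_lapW, zero_add, ← Finset.mul_sum] at h3
    rw [le_div_iff₀ hκ]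
    have h4 : 0 ≤ ∑ x, Gr x := Finset.sum_nonneg fun x _ => hGr x
    have h5 : κ * (1 / 2) * ∑ x, Gr x ≤ κ * Real.exp (-(4 * δ)) * ∑ x, Gr x := by gcongr
    linarith
  have h3 := l2_of_weak Gr A (2 / κ) hGr hA0 (by positivity) h1 h2
  refine h3.trans ?_
  have h4 : Real.sqrt (A * (2 / κ)) ≤ 2 * A / Real.sqrt κ := by
    rw [Real.sqrt_le_left (by positivity), div_pow, Real.sq_sqrt hκ.le]
    rw [mul_div_assoc']
    gcongr
    nlinarith
  calc 4 * Real.sqrt (A * (2 / κ)) ≤ 4 * (2 * A / Real.sqrt κ) := by linarith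
    _ = 8 * A / Real.sqrt κ := by ring

/-- the good event, `d = 3` -/
theorem good3 : ∃ A : ℝ, 1 ≤ A ∧ ∀ (μ : Measure ℝ) [IsProbabilityMeasure μ],
    μ (Set.Icc (-1) 1)ᶜ = 0 → ∀ (lam δ κ : ℝ), 0 < lam → 0 < δ → δ ≤ 1 / 8 → 0 < κ →
    ∀ (L : ℕ) [NeZero L], 1 / (4 * (L : ℝ) ^ 2) ≤ κ →
    ∃ E : ℝ, |E| ≤ lam ∧ ∃ G : Set (T 3 L → ℝ), MeasurableSet G ∧
      1 - 2 * (L : ℝ) ^ 3 * Real.exp (-(δ ^ 2 * Real.sqrt κ / (A * lam ^ 2))) ≤
        (Measure.pi fun _ : T 3 L => μ).real G ∧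
      ∀ V ∈ G, ∃ w : T 3 L → ℝ, (∀ x, |w x| ≤ δ) ∧
        ∀ x, ∑ i : Fin 3, ((1 - Real.exp (w (x + Pi.single i 1) - w x)) +
          (1 - Real.exp (w (x - Pi.single i 1) - w x))) + lam * V x - E + κ * w x = 0 := by
  obtain ⟨A, hA, HA⟩ := green3
  refine ⟨144 * A, by linarith, ?_⟩
  intro μ _ hμ lam δ κ hlam hδ hδ' hκ L _ hκL
  have hA0 : 0 < A := by linarith
  set R : ℝ := A / Real.sqrt κ with hR
  have hsq : 0 < Real.sqrt κ := Real.sqrt_pos.2 hκ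
  have hR0 : 0 < R := by positivity
  set θ : ℝ := δ / (72 * R * lam ^ 2) with hθ
  have hθ0 : 0 < θ := by positivity
  obtain ⟨E, hE, G, hGm, hP, hw⟩ := AE.Goodt.good 3 L κ hκ 2 R (by norm_num) hR0.le μ lam δ hlam hδ
    hδ' (by
      intro u Gr x0 hu hGr hh θ hθ
      calc ∑ z, min ((θ * Gr z) ^ 2) (θ * Gr z) ≤ ∑ z, (θ * Gr z) ^ 2 :=
            Finset.sum_le_sum fun z _ => min_le_left _ _
        _ = θ ^ 2 * ∑ z, Gr z ^ 2 := by
            rw [Finset.mul_sum]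
            exact Finset.sum_congr rfl fun z _ => by ring
        _ ≤ θ ^ 2 * R := mul_le_mul_of_nonneg_left (HA L κ δ hκ hκL hδ' u Gr x0 hu hGr hh)
            (sq_nonneg _)
        _ = R * θ ^ (2 : ℝ) := by rw [Real.rpow_two]; ring) θ hθ0
  obtain ⟨G', hG', hP', hV'⟩ := AE.Arith.pi_real_inter μ hμ G hGm _ hP
  refine ⟨E, hE, G', hG', ?_, fun V hV => hw V (hV' V hV).1 (hV' V hV).2⟩
  refine le_trans (le_of_eq ?_) hP'
  have he : -(θ * δ) + R * (6 * lam * θ) ^ (2 : ℝ) / (2 - 1) =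
      -(δ ^ 2 * Real.sqrt κ / (144 * A * lam ^ 2)) := by
    rw [Real.rpow_two, hθ, hR]
    field_simp
    ring
  rw [he]
  ring

end Pool.Agent.Y663.Mg
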