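import Pool.Agent.H4R2.LO.El

/-! Approximate ground states on tori and comparison of their energies (helper663). -/

set_option autoImplicit false

open scoped BigOperators ENNReal
open MeasureTheory

namespace Pool.Agent.Y663.Mc

open Pool.Agent.H4R2
open Pool.Agent.H4R2.AE (T LapW Hop)
open Pool.Agent.H4R2.LO.El (D io io_inj tp tp_io tp_out tp_hop tp_sq tp_D Int' ch ch_int ch_sq ch_D
  SS SS_ge map_pi)

/-- positive approximate eigenfunction: `1 ≤ ψ ≤ 2` and `|H ψ - E ψ| ≤ ε ψ` -/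
def ApE {d L : ℕ} (lam ε E : ℝ) (V : T d L → ℝ) : Prop :=
  ∃ ψ : T d L → ℝ, (∀ x, 1 ≤ ψ x ∧ ψ x ≤ 2) ∧ ∀ x, |Hop lam V ψ x - E * ψ x| ≤ ε * ψ x

section var
variable {d L : ℕ} [NeZero L]

theorem vf (lam : ℝ) (V ψ g : T d L → ℝ) :
    ∑ x, (ψ x * g x) * Hop lam V (fun y => ψ y * g y) x =
      ∑ x, g x * (ψ x * g x) * Hop lam V ψ x +
      ∑ x, ∑ i : Fin d, ψ x * ψ (x + Pi.single i 1) * (g x - g (x + Pi.single i 1)) ^ 2 := by
  have h1 := AE.Lin.bilin ψ g g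
  have h2 : ∀ x, g x * LapW ψ g x = (ψ x * g x) * Hop lam V (fun y => ψ y * g y) x -
      g x * (ψ x * g x) * Hop lam V ψ x := by
    intro x
    rw [AE.Gs.lapW_hop lam V]
    ring
  rw [Finset.sum_congr rfl fun x _ => h2 x, Finset.sum_sub_distrib] at h1
  have h3 : ∀ (x : T d L) (i : Fin d), ψ x * ψ (x + Pi.single i 1) *
      ((g x - g (x + Pi.single i 1)) * (g x - g (x + Pi.single i 1))) =
      ψ x * ψ (x + Pi.single i 1) * (g x - g (x + Pi.single i 1)) ^ 2 := fun x i => by ring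
  simp only [h3] at h1
  linarith

theorem vlow (lam e ε : ℝ) (V ψ f : T d L → ℝ) (h : ∀ x, |Hop lam V ψ x - e * ψ x| ≤ ε * ψ x)
    (h1 : ∀ x, 1 ≤ ψ x) : (e - ε) * ∑ x, f x ^ 2 ≤ ∑ x, f x * Hop lam V f x := by
  have h2 := vf lam V ψ (fun x => f x / ψ x)
  have h3 : ∀ x, ψ x * (f x / ψ x) = f x := fun x => by
    have := h1 x
    field_simp
  simp only [h3] at h2
  have h4 : 0 ≤ ∑ x, ∑ i : Fin d, ψ x * ψ (x + Pi.single i 1) *
      (f x / ψ x - f (x + Pi.single i 1) / ψ (x + Pi.single i 1)) ^ 2 := by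
    refine Finset.sum_nonneg fun x _ => Finset.sum_nonneg fun i _ => ?_
    have := h1 x
    have := h1 (x + Pi.single i 1)
    positivity
  have h5 : (e - ε) * ∑ x, f x ^ 2 ≤ ∑ x, f x / ψ x * f x * Hop lam V ψ x := by
    rw [Finset.mul_sum]
    refine Finset.sum_le_sum fun x _ => ?_
    have hpos : 0 < ψ x := by linarith [h1 x]
    have h6 : (e - ε) * ψ x ≤ Hop lam V ψ x := by
      have := (abs_le.1 (h x)).1
      linarith
    have h7 : 0 ≤ f x / ψ x * f x := by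
      have : f x / ψ x * f x = f x ^ 2 / ψ x := by ring
      rw [this]
      positivity
    calc (e - ε) * f x ^ 2 = f x / ψ x * f x * ((e - ε) * ψ x) := by field_simp
      _ ≤ _ := mul_le_mul_of_nonneg_left h6 h7
  linarith

theorem vup (lam e ε : ℝ) (V ψ χ : T d L → ℝ) (h : ∀ x, |Hop lam V ψ x - e * ψ x| ≤ ε * ψ x)
    (h1 : ∀ x, 1 ≤ ψ x) (h2 : ∀ x, ψ x ≤ 2) :
    ∑ x, (ψ x * χ x) * Hop lam V (fun y => ψ y * χ y) x ≤
      (e + ε) * ∑ x, (ψ x * χ x) ^ 2 + 4 * D χ := by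
  rw [vf lam V ψ χ]
  have h3 : ∑ x, ∑ i : Fin d, ψ x * ψ (x + Pi.single i 1) * (χ x - χ (x + Pi.single i 1)) ^ 2 ≤
      4 * D χ := by
    unfold LO.El.D
    rw [Finset.mul_sum]
    refine Finset.sum_le_sum fun x _ => ?_
    rw [Finset.mul_sum]
    refine Finset.sum_le_sum fun i _ => ?_
    have a1 := h1 x
    have a2 := h1 (x + Pi.single i 1)
    have a3 := h2 x
    have a4 := h2 (x + Pi.single i 1)
    have : ψ x * ψ (x + Pi.single i 1) ≤ 4 := by nlinarith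
    exact mul_le_mul_of_nonneg_right this (sq_nonneg _)
  have h5 : ∑ x, χ x * (ψ x * χ x) * Hop lam V ψ x ≤ (e + ε) * ∑ x, (ψ x * χ x) ^ 2 := by
    rw [Finset.mul_sum]
    refine Finset.sum_le_sum fun x _ => ?_
    have hpos : 0 < ψ x := by linarith [h1 x]
    have h6 : Hop lam V ψ x ≤ (e + ε) * ψ x := by
      have := (abs_le.1 (h x)).2
      linarith
    have h7 : 0 ≤ χ x * (ψ x * χ x) := by
      have : χ x * (ψ x * χ x) = χ x ^ 2 * ψ x := by ring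
      rw [this]
      positivity
    calc χ x * (ψ x * χ x) * Hop lam V ψ x ≤ χ x * (ψ x * χ x) * ((e + ε) * ψ x) :=
          mul_le_mul_of_nonneg_left h6 h7
      _ = _ := by ring
  linarith

end var

section tr
variable {d L L0 : ℕ} [NeZero L] [NeZero L0]

theorem cmp (hL : L ≤ L0) (lam e e0 ε ε0 : ℝ)
    (V0 ψ0 : T d L0 → ℝ) (ψ χ : T d L → ℝ)
    (hχ : Int' χ)
    (h : ∀ x, |Hop lam (fun x => V0 (io d L L0 x)) ψ x - e * ψ x| ≤ ε * ψ x)
    (h0 : ∀ x, |Hop lam V0 ψ0 x - e0 * ψ0 x| ≤ ε0 * ψ0 x) (h1 : ∀ x, 1 ≤ ψ x) (h2 : ∀ x, ψ x ≤ 2)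
    (h3 : ∀ x, 1 ≤ ψ0 x) (h4 : ∀ x, ψ0 x ≤ 2) :
    (|e - e0| - ε - ε0) * ∑ x, χ x ^ 2 ≤ 4 * D χ := by
  have hD : 0 ≤ D χ := Finset.sum_nonneg fun x _ => Finset.sum_nonneg fun i _ => sq_nonneg _
  have hmono : ∀ (ψ : T d L → ℝ), (∀ x, 1 ≤ ψ x) → ∑ x, χ x ^ 2 ≤ ∑ x, (ψ x * χ x) ^ 2 := by
    intro ψ hψ
    refine Finset.sum_le_sum fun x _ => ?_
    rw [mul_pow]
    have := hψ x
    nlinarith [sq_nonneg (χ x), mul_nonneg (sub_nonneg.2 this) (sq_nonneg (χ x))]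
  have hχ0 : 0 ≤ ∑ x, χ x ^ 2 := Finset.sum_nonneg fun x _ => sq_nonneg _
  by_cases hneg : |e - e0| - ε - ε0 ≤ 0
  · have := mul_nonneg (neg_nonneg.2 hneg) hχ0
    nlinarith
  push Not at hneg
  rcases abs_cases (e - e0) with ⟨ha, hb⟩ | ⟨ha, hb⟩
  · -- `e ≥ e0`
    rw [ha] at hneg ⊢
    set f : T d L → ℝ := fun x => ψ0 (io d L L0 x) * χ x with hf
    have hfi : Int' f := fun x hx => hχ x fun hc => hx (by rw [hf]; simp [hc])
    have hft : tp L0 f = fun y => ψ0 y * tp L0 χ y := by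
      funext y
      by_cases hy : y ∈ Set.range (io d L L0)
      · obtain ⟨x, rfl⟩ := hy
        rw [tp_io hL, tp_io hL]
      · rw [tp_out f y hy, tp_out χ y hy, mul_zero]
    have e1 := vlow lam e ε _ ψ f h h1
    have e2 := tp_hop hL lam V0 f hfi
    have e3 := vup lam e0 ε0 V0 ψ0 (tp L0 χ) h0 h3 h4
    rw [tp_D hL χ hχ] at e3
    have e4 : ∑ y, (ψ0 y * tp L0 χ y) ^ 2 = ∑ x, f x ^ 2 := by
      rw [← tp_sq hL f, hft]
    rw [e4] at e3
    rw [hft] at e2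
    have e5 : (e - e0 - ε - ε0) * ∑ x, f x ^ 2 ≤ 4 * D χ := by linarith
    have e6 := hmono (fun x => ψ0 (io d L L0 x)) (fun x => h3 _)
    calc (e - e0 - ε - ε0) * ∑ x, χ x ^ 2 ≤ (e - e0 - ε - ε0) * ∑ x, f x ^ 2 :=
          mul_le_mul_of_nonneg_left e6 hneg.le
      _ ≤ _ := e5
  · rw [ha] at hneg ⊢
    set f : T d L → ℝ := fun x => ψ x * χ x with hf
    have hfi : Int' f := fun x hx => hχ x fun hc => hx (by rw [hf]; simp [hc])
    have e1 := vlow lam e0 ε0 V0 ψ0 (tp L0 f) h0 h3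
    rw [tp_hop hL lam V0 f hfi, tp_sq hL f] at e1
    have e3 := vup lam e ε _ ψ χ h h1 h2
    have e5 : (-(e - e0) - ε - ε0) * ∑ x, f x ^ 2 ≤ 4 * D χ := by
      have : ∑ x, (ψ x * χ x) * Hop lam (fun x => V0 (io d L L0 x)) (fun y => ψ y * χ y) x =
        ∑ x, f x * Hop lam (fun x => V0 (io d L L0 x)) f x := rfl
      have e7 : ∑ x, (ψ x * χ x) ^ 2 = ∑ x, f x ^ 2 := rfl
      linarith
    have e6 := hmono ψ h1
    calc (-(e - e0) - ε - ε0) * ∑ x, χ x ^ 2 ≤ (-(e - e0) - ε - ε0) * ∑ x, f x ^ 2 :=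
          mul_le_mul_of_nonneg_left e6 hneg.le
      _ ≤ _ := e5

end tr

/-- pointwise bound -/
theorem pt {d L : ℕ} (lam e ε : ℝ) (V ψ : T d L → ℝ)
    (h : ∀ x, |Hop lam V ψ x - e * ψ x| ≤ ε * ψ x)
    (h1 : ∀ x, 1 ≤ ψ x) (h2 : ∀ x, ψ x ≤ 2) (x : T d L) : |lam * V x - e| ≤ 2 * d + ε := by
  have h3 := h x
  unfold AE.Hop at h3
  set S := ∑ i : Fin d, (2 * ψ x - ψ (x + Pi.single i 1) - ψ (x - Pi.single i 1)) with hS
  have h4 : S ≤ ∑ _i : Fin d, (2 : ℝ) := by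
    refine Finset.sum_le_sum fun i _ => ?_
    linarith [h2 x, h1 (x + Pi.single i 1), h1 (x - Pi.single i 1)]
  have h5 : ∑ _i : Fin d, (-2 : ℝ) ≤ S := by
    refine Finset.sum_le_sum fun i _ => ?_
    linarith [h1 x, h2 (x + Pi.single i 1), h2 (x - Pi.single i 1)]
  rw [Finset.sum_const, Finset.card_univ, Fintype.card_fin, nsmul_eq_mul] at h4 h5
  have hp : 0 < ψ x := by linarith [h1 x]
  have hd0 : (0 : ℝ) ≤ d := Nat.cast_nonneg d
  obtain ⟨h6, h7⟩ := abs_le.1 h3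
  have hd1 : (d : ℝ) * 2 ≤ (d : ℝ) * 2 * ψ x := by nlinarith [h1 x]
  rw [abs_le]
  constructor
  · by_contra hc
    push Not at hc
    have := mul_lt_mul_of_pos_right hc hp
    nlinarith
  · by_contra hc
    push Not at hc
    have := mul_lt_mul_of_pos_right hc hp
    nlinarith

theorem det (d : ℕ) (hd : 1 ≤ d) {L L0 : ℕ} [NeZero L] [NeZero L0] (hL : L ≤ L0)
    (lam e e0 ε ε0 : ℝ) (V0 ψ0 : T d L0 → ℝ) (ψ : T d L → ℝ)
    (h : ∀ x, |Hop lam (fun x => V0 (io d L L0 x)) ψ x - e * ψ x| ≤ ε * ψ x)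
    (h0 : ∀ x, |Hop lam V0 ψ0 x - e0 * ψ0 x| ≤ ε0 * ψ0 x) (h1 : ∀ x, 1 ≤ ψ x) (h2 : ∀ x, ψ x ≤ 2)
    (h3 : ∀ x, 1 ≤ ψ0 x) (h4 : ∀ x, ψ0 x ≤ 2) :
    |e - e0| ≤ ε + ε0 + 1024 * d / (L : ℝ) ^ 2 := by
  have hLpos : (0 : ℝ) < L := by exact_mod_cast Nat.pos_of_ne_zero (NeZero.ne L)
  have hdpos : (1 : ℝ) ≤ d := by exact_mod_cast hd
  suffices hs : |e - e0| - ε - ε0 ≤ 1024 * d / (L : ℝ) ^ 2 by linarith
  by_cases hL4 : 4 ≤ L
  · have a1 := cmp hL lam e e0 ε ε0 V0 ψ0 ψ (ch d L) ch_int h h0 h1 h2 h3 h4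
    have a2 := ch_D (d := d) (L := L) hd
    rw [ch_sq] at a1
    have a3 := SS_ge (L := L) hL4
    have hSpos : 0 < SS L := lt_of_lt_of_le (by positivity) a3
    have a4 : SS L ^ d = SS L * SS L ^ (d - 1) := by
      rw [← pow_succ']
      congr 1
      omega
    rw [a4] at a1
    have hP : 0 < SS L ^ (d - 1) := by positivity
    have a5 : (|e - e0| - ε - ε0) * SS L ≤ 4 * (d * L) := by
      have : ((|e - e0| - ε - ε0) * SS L) * SS L ^ (d - 1) ≤ (4 * (d * L)) * SS L ^ (d - 1) := by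
        calc ((|e - e0| - ε - ε0) * SS L) * SS L ^ (d - 1) =
              (|e - e0| - ε - ε0) * (SS L * SS L ^ (d - 1)) := by ring
          _ ≤ 4 * D (ch d L) := a1
          _ ≤ 4 * (d * (L * SS L ^ (d - 1))) := by linarith
          _ = _ := by ring
      exact le_of_mul_le_mul_right this hP
    by_cases hneg : |e - e0| - ε - ε0 ≤ 0
    · exact hneg.trans (by positivity)
    push Not at hneg
    have a6 : (|e - e0| - ε - ε0) * ((L : ℝ) ^ 3 / 256) ≤ 4 * (d * L) :=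
      (mul_le_mul_of_nonneg_left a3 hneg.le).trans a5
    rw [le_div_iff₀ (by positivity)]
    have a7 : (|e - e0| - ε - ε0) * (L : ℝ) ^ 2 * L ≤ 1024 * d * L := by
      have : (|e - e0| - ε - ε0) * (L : ℝ) ^ 2 * L =
        ((|e - e0| - ε - ε0) * ((L : ℝ) ^ 3 / 256)) * 256 := by ring
      rw [this]
      nlinarith
    exact le_of_mul_le_mul_right a7 hLpos
  · have b1 := pt lam e ε _ ψ h h1 h2 0
    have b2 := pt lam e0 ε0 V0 ψ0 h0 h3 h4 (io d L L0 0)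
    have b3 : |e - e0| - ε - ε0 ≤ 4 * d := by
      have : e - e0 = -(lam * V0 (io d L L0 0) - e) + (lam * V0 (io d L L0 0) - e0) := by ring
      have h5 := abs_add_le (-(lam * V0 (io d L L0 0) - e)) (lam * V0 (io d L L0 0) - e0)
      rw [← this, abs_neg] at h5
      linarith
    refine b3.trans ?_
    rw [le_div_iff₀ (by positivity)]
    have hL3 : (L : ℝ) ≤ 3 := by exact_mod_cast (by omega : L ≤ 3)
    have hL9 : (L : ℝ) ^ 2 ≤ 3 ^ 2 := by gcongr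
    have : 4 * (d : ℝ) * (L : ℝ) ^ 2 ≤ 4 * d * 3 ^ 2 := by gcongr
    linarith

/-- the deterministic energies on tori of different sizes are close -/
theorem el (d : ℕ) (hd : 1 ≤ d) (μ : Measure ℝ) [IsProbabilityMeasure μ] (lam : ℝ) (L L0 : ℕ)
    [NeZero L] [NeZero L0]
    (hL : L ≤ L0) (E E' ε ε' : ℝ)
    (G : Set (T d L → ℝ)) (G0 : Set (T d L0 → ℝ))
    (hG : MeasurableSet G)
    (hP : 1 / 2 < (Measure.pi fun _ : T d L => μ).real G)
    (hP0 : 1 / 2 < (Measure.pi fun _ : T d L0 => μ).real G0)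
    (hF : ∀ V ∈ G, ApE lam ε E V) (hF0 : ∀ V ∈ G0, ApE lam ε' E' V) :
    |E - E'| ≤ ε + ε' + 1024 * d / (L : ℝ) ^ 2 := by
  set R : (T d L0 → ℝ) → (T d L → ℝ) := fun V x => V (io d L L0 x) with hR
  have hRm : Measurable R := measurable_pi_lambda _ fun x => measurable_pi_apply _
  have hmap := map_pi μ (io d L L0) (io_inj hL)
  have hP' : 1 / 2 < (Measure.pi fun _ : T d L0 => μ).real (R ⁻¹' G) := by
    rw [← hmap, map_measureReal_apply hRm hG] at hP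
    exact hP
  obtain ⟨V0, hV0, hV1⟩ : ∃ V0, V0 ∈ G0 ∧ R V0 ∈ G := by
    by_contra hcon
    push Not at hcon
    have hdisj : Disjoint G0 (R ⁻¹' G) := Set.disjoint_left.2 hcon
    have h1 := measureReal_union (μ := Measure.pi fun _ : T d L0 => μ) hdisj (hRm hG)
    have h2 : (Measure.pi fun _ : T d L0 => μ).real (G0 ∪ R ⁻¹' G) ≤ 1 := measureReal_le_one
    linarith
  obtain ⟨ψ, hψ, heig⟩ := hF _ hV1
  obtain ⟨ψ0, hψ0, heig0⟩ := hF0 _ hV0
  exact det d hd hL lam E E' ε ε' V0 ψ0 ψ heig heig0 (fun x => (hψ x).1)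
    (fun x => (hψ x).2) (fun x => (hψ0 x).1) (fun x => (hψ0 x).2)

theorem of_flat {d L : ℕ} [NeZero L] (lam η κ E : ℝ) (hη : η ≤ 1) (V : T d L → ℝ)
    (h : AE.Core.FlatE lam η κ E V) : ApE lam κ E V := by
  obtain ⟨E0, ψ, h1, h2, h3, _⟩ := h
  refine ⟨ψ, fun x => ⟨(h2 x).1, by linarith [(h2 x).2]⟩, fun x => ?_⟩
  rw [h3 x, ← sub_mul, abs_mul, abs_of_pos (by linarith [(h2 x).1] : 0 < ψ x)]
  exact mul_le_mul_of_nonneg_right h1 (by linarith [(h2 x).1])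

/-- the exponential of a solution of the massive equation is an approximate eigenfunction -/
theorem of_sol {d L : ℕ} [NeZero L] (lam κ δ E : ℝ) (hκ : 0 ≤ κ) (hδ' : δ ≤ 1 / 4)
    (V w : T d L → ℝ) (hw : ∀ x, |w x| ≤ δ)
    (h : ∀ x, ∑ i : Fin d, ((1 - Real.exp (w (x + Pi.single i 1) - w x)) +
      (1 - Real.exp (w (x - Pi.single i 1) - w x))) + lam * V x - E + κ * w x = 0) :
    ApE lam (κ * δ) E V := by
  refine ⟨fun y => Real.exp δ * Real.exp (w y), fun x => ?_, fun x => ?_⟩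
  · beta_reduce
    rw [← Real.exp_add]
    obtain ⟨h1, h2⟩ := abs_le.1 (hw x)
    constructor
    · exact Real.one_le_exp (by linarith)
    · have h3 : Real.exp (δ + w x) ≤ Real.exp (1 / 2) := Real.exp_le_exp.2 (by linarith)
      have h4 : Real.exp (1 / 2) ≤ 2 := by
        have h5 : Real.exp (1 / 2) ^ 2 = Real.exp 1 := by
          rw [← Real.exp_nat_mul]
          norm_num
        have h6 := Real.exp_one_lt_d9
        have h7 := Real.exp_pos (1 / 2)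
        nlinarith
      exact h3.trans h4
  · have h1 := AE.Core.hop_eq lam E κ V w h x
    have h2 : Hop lam V (fun y => Real.exp δ * Real.exp (w y)) x =
        Real.exp δ * Hop lam V (fun y => Real.exp (w y)) x := by
      unfold AE.Hop
      rw [mul_add, Finset.mul_sum]
      congr 1
      · refine Finset.sum_congr rfl fun i _ => ?_
        ring
      · ring
    rw [h2, h1]
    have h3 : Real.exp δ * ((E - κ * w x) * Real.exp (w x)) - E * (Real.exp δ * Real.exp (w x)) =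
        -(κ * w x) * (Real.exp δ * Real.exp (w x)) := by ring
    have hp : 0 < Real.exp δ * Real.exp (w x) := by positivity
    rw [h3, abs_mul, abs_of_pos hp, abs_neg, abs_mul, abs_of_nonneg hκ]
    exact mul_le_mul_of_nonneg_right (mul_le_mul_of_nonneg_left (hw x) hκ) hp.le

/-- form bound -/
theorem torusBound {d L : ℕ} [NeZero L] (μ : Measure ℝ) (lam ε E ε0 : ℝ)
    (G : Set (T d L → ℝ)) (hG : MeasurableSet G)
    (hP : 1 - ε0 ≤ (Measure.pi fun _ : T d L => μ).real G)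
    (hap : ∀ V ∈ G, ApE lam ε E V) : LO.TorusBound d L μ lam (E - ε) ε0 := by
  refine ⟨G, hG, hP, fun V hV f => ?_⟩
  obtain ⟨ψ, hψ, h⟩ := hap V hV
  exact vlow lam E ε V ψ f h (fun x => (hψ x).1)

end Pool.Agent.Y663.Mc
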