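import Pool.Agent.H4R2.LO.Fin
import Pool.Agent.Y663.Mc
import Pool.Agent.Y663.Mg

/-! Localization up to the effective band edge in dimension three: assembly (helper663). -/

set_option autoImplicit false

open scoped BigOperators
open MeasureTheory

namespace Pool.Agent.Y663.Mf

open Pool.Agent.H4R2
open Pool.Agent.H4R2.LO (Zd)

/-- `exp (- a log (1/lam)) = lam ^ a` -/
theorem exp_log (lam a : ℝ) (hlam : 0 < lam) :
    Real.exp (-(a * Real.log (1 / lam))) = lam ^ a := by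
  rw [Real.rpow_def_of_pos hlam, one_div, Real.log_inv]
  congr 1
  ring

theorem xstep (X N y lam : ℝ) (hX : 0 ≤ X) (hN : 0 ≤ N) (hNX : N ≤ 2 * X) (hy : 0 ≤ y)
    (h2 : X ^ 4 * y = lam ^ 4) (hlam : 0 < lam) (hlam4 : lam ≤ 1 / 4) :
    X * (2 * N ^ 3 * y) ≤ lam := by
  have h1 : N ^ 3 ≤ (2 * X) ^ 3 := pow_le_pow_left₀ hN hNX 3
  have h5 : lam ^ 3 ≤ (1 / 4) ^ 3 := pow_le_pow_left₀ hlam.le hlam4 3
  calc X * (2 * N ^ 3 * y) ≤ X * (2 * (2 * X) ^ 3 * y) := by gcongr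
    _ = 16 * (X ^ 4 * y) := by ring
    _ = 16 * lam ^ 3 * lam := by rw [h2]; ring
    _ ≤ 16 * (1 / 4) ^ 3 * lam := by gcongr
    _ ≤ lam := by nlinarith

theorem fin3 (B : ℝ) (hB : 0 < B) (η : ℝ) (hη : 0 < η) (hη' : η ≤ 1) :
    ∃ k K : ℝ, 0 < k ∧ k ≤ 1 / 4 ∧ 0 < K ∧
    ∀ (μ : Measure ℝ) [IsProbabilityMeasure μ], μ (Set.Icc (-1) 1)ᶜ = 0 → LO.Reg B μ →
    ∀ lam : ℝ, 0 < lam → lam ≤ k → ∃ Es : ℝ, |Es| ≤ lam ∧
      (∀ (L : ℕ) [NeZero L], (L : ℝ) * (lam ^ 2 * Real.log (1 / lam)) ≤ k →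
        ∃ G : Set (AE.T 3 L → ℝ), MeasurableSet G ∧
          1 - lam ≤ (Measure.pi fun _ : AE.T 3 L => μ).real G ∧
          ∀ V ∈ G, ∃ (E0 : ℝ) (ψ : AE.T 3 L → ℝ), |E0 - Es| ≤ K / (L : ℝ) ^ 2 ∧
            (∀ x, 1 ≤ ψ x ∧ ψ x ≤ 1 + η) ∧ ∀ x, AE.Hop lam V ψ x = E0 * ψ x) ∧
      ∀ κ : ℝ, K * lam ^ 4 * Real.log (1 / lam) ^ 2 ≤ κ → κ ≤ 1 →
        ∀ᵐ ω ∂(Measure.infinitePi fun _ : Zd 3 => μ),
          LO.Main.Dec 3 (-1) (fun x => lam * ω x) (Set.Iic (Es - 2 * (3 : ℕ) - κ))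
            (k * Real.sqrt κ / Real.log (2 / (κ * lam))) := by
  obtain ⟨C, hC, Hb⟩ := LO.Main.below 3 (by norm_num) B hB
  obtain ⟨A, hA, HA⟩ := Mg.good3
  obtain ⟨C2, hC2, Hflat⟩ := AE.Core2.gen 3 le_rfl
  have hC0 : 0 < C := by linarith
  have hA0 : 0 < A := by linarith
  have hC20 : 0 < C2 := by linarith
  -- parameters
  set δ : ℝ := min (1 / 8) (η / C2) with hδ
  have hδ0 : 0 < δ := by positivity
  have hδ8 : δ ≤ 1 / 8 := min_le_left _ _
  have hδC : δ ≤ η / C2 := min_le_right _ _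
  set S : ℝ := 64 * A * (20 * C + 4) with hS
  have hS0 : 0 < S := by positivity
  have hS1 : 1 ≤ S := by nlinarith
  set K1 : ℝ := S ^ 2 with hK1
  have hK11 : 1 ≤ K1 := by nlinarith
  set k : ℝ := min (1 / 4) (min (δ ^ 2 / (16 * A)) (1 / (4 * C))) with hk
  have hk0 : 0 < k := by positivity
  have hk4 : k ≤ 1 / 4 := min_le_left _ _
  have hkδ : k ≤ δ ^ 2 / (16 * A) := (min_le_right _ _).trans (min_le_left _ _)
  have hkC : k ≤ 1 / (4 * C) := (min_le_right _ _).trans (min_le_right _ _)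
  refine ⟨k, K1 + 4000, hk0, hk4, by linarith, ?_⟩
  intro μ _ hμ hreg lam hlam hlamk
  have hlam4 : lam ≤ 1 / 4 := hlamk.trans hk4
  have hlam1 : lam ≤ 1 := by linarith
  set l : ℝ := Real.log (1 / lam) with hl
  have hl1 : 1 ≤ l := by
    rw [hl, Real.le_log_iff_exp_le (by positivity)]
    have h1 := Real.exp_one_lt_d9
    rw [le_div_iff₀ hlam]
    nlinarith
  have hl0 : 0 < l := by linarith
  -- the massive torus
  set X : ℝ := lam ^ (-(5 * C)) with hX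
  have hX1 : 1 ≤ X := Real.one_le_rpow_of_pos_of_le_one_of_nonpos hlam hlam1 (by linarith)
  set L0 : ℕ := ⌈X⌉₊ with hL0
  have hL0ge : X ≤ L0 := Nat.le_ceil X
  have hL0le : (L0 : ℝ) ≤ 2 * X := by
    have := Nat.ceil_lt_add_one (by linarith : 0 ≤ X)
    linarith
  have hL0pos' : (0 : ℝ) < L0 := by linarith
  have hL0pos : 0 < L0 := by exact_mod_cast hL0pos'
  have : NeZero L0 := ⟨hL0pos.ne'⟩
  set κ0 : ℝ := K1 * lam ^ 4 * l ^ 2 with hκ0
  have hκ00 : 0 < κ0 := by positivity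
  have hX2 : lam⁻¹ ^ 5 ≤ X := by
    rw [hX, ← Real.rpow_natCast, ← Real.rpow_neg_one, ← Real.rpow_mul hlam.le]
    apply Real.rpow_le_rpow_of_exponent_ge hlam hlam1
    push_cast
    linarith
  have hκL0 : 1 / (4 * (L0 : ℝ) ^ 2) ≤ κ0 := by
    rw [div_le_iff₀ (by positivity)]
    have h1 : lam⁻¹ ^ 5 ≤ (L0 : ℝ) := hX2.trans hL0ge
    have h2 : (lam⁻¹ ^ 5) ^ 2 ≤ (L0 : ℝ) ^ 2 := pow_le_pow_left₀ (by positivity) h1 2
    have h3 : 1 ≤ lam ^ 4 * (lam⁻¹ ^ 5) ^ 2 := by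
      have h4 : lam ^ 4 * (lam⁻¹ ^ 5) ^ 2 = lam⁻¹ ^ 6 := by
        field_simp
      rw [h4]
      apply one_le_pow₀
      exact (one_le_inv₀ hlam).2 hlam1
    have h5 : lam ^ 4 * (lam⁻¹ ^ 5) ^ 2 ≤ lam ^ 4 * (L0 : ℝ) ^ 2 := by gcongr
    have h6 : 1 ≤ K1 * l ^ 2 := by
      have : 1 ≤ l ^ 2 := by nlinarith
      nlinarith
    have h7 : lam ^ 4 * (L0 : ℝ) ^ 2 ≤ (K1 * l ^ 2) * (lam ^ 4 * (L0 : ℝ) ^ 2) :=
      le_mul_of_one_le_left (by positivity) h6
    have h8 : κ0 * (4 * (L0 : ℝ) ^ 2) = 4 * ((K1 * l ^ 2) * (lam ^ 4 * (L0 : ℝ) ^ 2)) := by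
      rw [hκ0]; ring
    rw [h8]
    linarith
  obtain ⟨Es, hEs, G0, hG0, hP0, hw0⟩ := HA μ hμ lam (1 / 8) κ0 hlam (by norm_num) le_rfl hκ00 L0 hκL0
  have hap0 : ∀ V ∈ G0, Mc.ApE lam (κ0 * (1 / 8)) Es V := by
    intro V hV
    obtain ⟨w, hw1, hw2⟩ := hw0 V hV
    exact Mc.of_sol lam κ0 (1 / 8) Es hκ00.le (by norm_num) V w hw1 hw2
  -- the probability
  set ε0 : ℝ := 2 * (L0 : ℝ) ^ 3 * Real.exp (-((1 / 8) ^ 2 * Real.sqrt κ0 / (A * lam ^ 2))) with hε0
  have hsqrt : Real.sqrt κ0 = S * lam ^ 2 * l := by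
    rw [hκ0, hK1]
    have : S ^ 2 * lam ^ 4 * l ^ 2 = (S * lam ^ 2 * l) ^ 2 := by ring
    rw [this, Real.sqrt_sq (by positivity)]
  have hexp0 : Real.exp (-((1 / 8) ^ 2 * Real.sqrt κ0 / (A * lam ^ 2))) = lam ^ (20 * C + 4) := by
    rw [← exp_log lam _ hlam, hsqrt, hS, ← hl]
    congr 2
    field_simp
    norm_num
  have hε00 : 0 ≤ ε0 := by positivity
  have hXpow : X * ε0 ≤ lam := by
    rw [hε0, hexp0]
    have h2 : X ^ 4 * lam ^ (20 * C + 4) = lam ^ (4 : ℕ) := by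
      rw [hX, ← Real.rpow_natCast, ← Real.rpow_mul hlam.le, ← Real.rpow_add hlam,
        ← Real.rpow_natCast]
      congr 1
      push_cast
      ring
    exact xstep X L0 _ lam (by linarith) hL0pos'.le hL0le (Real.rpow_pos_of_pos hlam _).le h2 hlam
      hlam4
  have hε0lam : ε0 ≤ lam := by
    have h1 : 1 * ε0 ≤ X * ε0 := mul_le_mul_of_nonneg_right hX1 hε00
    linarith
  refine ⟨Es, hEs, ?_, ?_⟩
  · -- flat ground states on small tori
    intro L _ hL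
    have hLpos' : (0 : ℝ) < L := AE.Core.L_pos (L := L)
    have hLle : (L : ℝ) ≤ lam⁻¹ ^ 2 := by
      have h1 : (L : ℝ) * lam ^ 2 ≤ 1 := by
        have h2 : (L : ℝ) * lam ^ 2 * 1 ≤ (L : ℝ) * lam ^ 2 * l := by gcongr
        have h3 : (L : ℝ) * lam ^ 2 * l = (L : ℝ) * (lam ^ 2 * l) := by ring
        linarith
      rw [inv_pow, ← one_div, le_div_iff₀ (by positivity)]
      exact h1
    have hinv1 : 1 ≤ lam⁻¹ := (one_le_inv₀ hlam).2 hlam1
    have hLL0 : L ≤ L0 := by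
      have h1 : lam⁻¹ ^ 2 ≤ lam⁻¹ ^ 5 := pow_le_pow_right₀ hinv1 (by norm_num)
      have h2 : (L : ℝ) ≤ L0 := hLle.trans (h1.trans (hX2.trans hL0ge))
      exact_mod_cast h2
    obtain ⟨E, hE, G, hG, hP, hw⟩ := HA μ hμ lam δ (1 / (4 * (L : ℝ) ^ 2)) hlam hδ0 hδ8 (by positivity)
      L le_rfl
    have hflat : ∀ V ∈ G, AE.Core.FlatE lam η (1 / (L : ℝ) ^ 2) E V := by
      intro V hV
      obtain ⟨w, hw1, hw2⟩ := hw V hV
      exact Hflat L lam η E hη hη' V w (fun x => (hw1 x).trans hδC) hw2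
    have hsq : Real.sqrt (1 / (4 * (L : ℝ) ^ 2)) = 1 / (2 * L) := by
      have : 1 / (4 * (L : ℝ) ^ 2) = (1 / (2 * L)) ^ 2 := by
        field_simp
        norm_num
      rw [this, Real.sqrt_sq (by positivity)]
    have hPG : 1 - lam ≤ (Measure.pi fun _ : AE.T 3 L => μ).real G := by
      refine le_trans ?_ hP
      rw [hsq]
      have h1 : 8 * l ≤ δ ^ 2 * (1 / (2 * (L : ℝ))) / (A * lam ^ 2) := by
        rw [le_div_iff₀ (by positivity), mul_one_div, le_div_iff₀ (by positivity)]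
        have h2 : k * (16 * A) ≤ δ ^ 2 := by
          rwa [le_div_iff₀ (by positivity)] at hkδ
        calc 8 * l * (A * lam ^ 2) * (2 * (L : ℝ)) = (16 * A) * ((L : ℝ) * (lam ^ 2 * l)) := by ring
          _ ≤ (16 * A) * k := by gcongr
          _ ≤ δ ^ 2 := by linarith
      have h2 : Real.exp (-(δ ^ 2 * (1 / (2 * (L : ℝ))) / (A * lam ^ 2))) ≤ lam ^ 8 := by
        have h3 : Real.exp (-(8 * l)) = lam ^ 8 := by
          have := exp_log lam 8 hlam
          rw [← hl] at this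
          rw [this]
          norm_cast
        rw [← h3]
        apply Real.exp_le_exp.2
        linarith
      have h3 : (L : ℝ) ^ 3 ≤ (lam⁻¹ ^ 2) ^ 3 := pow_le_pow_left₀ hLpos'.le hLle 3
      have h4 : 2 * (L : ℝ) ^ 3 * Real.exp (-(δ ^ 2 * (1 / (2 * (L : ℝ))) / (A * lam ^ 2))) ≤ lam := by
        calc 2 * (L : ℝ) ^ 3 * Real.exp (-(δ ^ 2 * (1 / (2 * (L : ℝ))) / (A * lam ^ 2)))
            ≤ 2 * (lam⁻¹ ^ 2) ^ 3 * lam ^ 8 := by gcongr
          _ = 2 * lam * lam := by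
              field_simp
          _ ≤ lam := by nlinarith
      linarith
    have hel := Mc.el 3 (by norm_num) μ lam L L0 hLL0 E Es (1 / (L : ℝ) ^ 2) (κ0 * (1 / 8)) G G0 hG
      (by linarith) (by
        have : 1 - ε0 ≤ (Measure.pi fun _ : AE.T 3 L0 => μ).real G0 := hP0
        linarith)
      (fun V hV => Mc.of_flat lam η _ E hη' V (hflat V hV)) hap0
    have hκL : κ0 * (1 / 8) ≤ K1 / (L : ℝ) ^ 2 := by
      rw [le_div_iff₀ (by positivity), hκ0]
      have h1 : ((L : ℝ) * (lam ^ 2 * l)) ^ 2 ≤ 1 := by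
        apply pow_le_one₀ (by positivity)
        linarith
      calc K1 * lam ^ 4 * l ^ 2 * (1 / 8) * (L : ℝ) ^ 2 =
            K1 * (1 / 8) * ((L : ℝ) * (lam ^ 2 * l)) ^ 2 := by ring
        _ ≤ K1 * (1 / 8) * 1 := by gcongr
        _ ≤ K1 := by linarith
    refine ⟨G, hG, hPG, fun V hV => ?_⟩
    obtain ⟨E0, ψ, h1, h2, h3, _⟩ := hflat V hV
    refine ⟨E0, ψ, ?_, h2, h3⟩
    have e1 : E0 - Es = (E0 - E) + (E - Es) := by ring
    rw [e1]
    refine (abs_add_le _ _).trans ?_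
    have e2 : (K1 + 4000) / (L : ℝ) ^ 2 = 1 / (L : ℝ) ^ 2 + (1 / (L : ℝ) ^ 2 + K1 / (L : ℝ) ^ 2 +
        1024 * (3 : ℕ) / (L : ℝ) ^ 2) + 926 / (L : ℝ) ^ 2 := by
      push_cast
      ring
    have e3 : 0 ≤ 926 / (L : ℝ) ^ 2 := by positivity
    rw [e2]
    linarith
  · -- localization
    intro κ hκ hκ1
    have hκ0' : κ0 ≤ κ := by
      refine le_trans ?_ hκ
      rw [hκ0]
      have : 0 ≤ 4000 * lam ^ 4 * l ^ 2 := by positivity
      nlinarith
    have hκpos : 0 < κ := lt_of_lt_of_le hκ00 hκ0'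
    have hbase : 2 / (κ / 2 * lam) ≤ lam⁻¹ ^ 5 := by
      have h1 : 4 * lam ^ 4 ≤ κ := by
        refine le_trans ?_ hκ
        have h2 : 1 ≤ l ^ 2 := by nlinarith
        calc 4 * lam ^ 4 ≤ (K1 + 4000) * lam ^ 4 := by
              have : 0 < lam ^ 4 := by positivity
              nlinarith
          _ = (K1 + 4000) * lam ^ 4 * 1 := by ring
          _ ≤ (K1 + 4000) * lam ^ 4 * l ^ 2 := by gcongr
      rw [div_le_iff₀ (by positivity)]
      have h3 : lam⁻¹ ^ 5 * (κ / 2 * lam) = κ / (2 * lam ^ 4) := by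
        field_simp
      rw [h3, le_div_iff₀ (by positivity)]
      linarith
    have hpow : (2 / (κ / 2 * lam)) ^ C ≤ X := by
      calc (2 / (κ / 2 * lam)) ^ C ≤ (lam⁻¹ ^ 5) ^ C :=
            Real.rpow_le_rpow (by positivity) hbase hC0.le
        _ = X := by
            rw [hX, ← Real.rpow_natCast, ← Real.rpow_neg_one, ← Real.rpow_mul hlam.le,
              ← Real.rpow_mul hlam.le]
            congr 1
            push_cast
            ring
    have hT := Mc.torusBound μ lam (κ0 * (1 / 8)) Es ε0 G0 hG0 hP0 hap0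
    have hb := Hb μ hreg lam hlam hlam1 L0 (Es - κ0 * (1 / 8)) ε0 hε00 hT (κ / 2) (by positivity)
      (by linarith) (hpow.trans hL0ge) (by
        calc (2 / (κ / 2 * lam)) ^ C * ε0 ≤ X * ε0 := by gcongr
          _ ≤ 1 := by linarith)
    filter_upwards [hb] with ω hω
    refine LO.Main.dec_mono _ _ _ _ _ _ hω ?_ ?_
    · apply Set.Iic_subset_Iic.2
      linarith
    · -- rate
      have hbase : 2 ≤ 2 / (κ * lam) := by
        rw [le_div_iff₀ (by positivity)]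
        have : κ * lam ≤ 1 := by nlinarith
        linarith
      have hX : 0 < Real.log (2 / (κ * lam)) := Real.log_pos (by linarith)
      have hX2 : Real.log (2 / (κ / 2 * lam)) ≤ 2 * Real.log (2 / (κ * lam)) := by
        have e1 : 2 / (κ / 2 * lam) = 2 * (2 / (κ * lam)) := by
          field_simp
        rw [e1, Real.log_mul (by norm_num) (by positivity)]
        have e2 := Real.log_le_log (by norm_num) hbase
        linarith
      have hX2pos : 0 < Real.log (2 / (κ / 2 * lam)) := by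
        apply Real.log_pos
        have e1 : 2 / (κ / 2 * lam) = 2 * (2 / (κ * lam)) := by
          field_simp
        rw [e1]
        linarith
      have hsq : Real.sqrt κ / 2 ≤ Real.sqrt (κ / 2) := by
        rw [Real.le_sqrt (by positivity) (by positivity), div_pow, Real.sq_sqrt hκpos.le]
        linarith
      have hkC' : k * (4 * C) ≤ 1 := by
        rwa [le_div_iff₀ (by positivity)] at hkC
      rw [div_le_div_iff₀ hX (by positivity)]
      have e5 : k * Real.sqrt κ * (C * Real.log (2 / (κ / 2 * lam))) ≤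
          k * Real.sqrt κ * (C * (2 * Real.log (2 / (κ * lam)))) := by
        have := Real.sqrt_nonneg κ
        gcongr
      refine e5.trans ?_
      have e6 : k * Real.sqrt κ * (C * (2 * Real.log (2 / (κ * lam)))) =
          (k * (4 * C)) * (Real.sqrt κ / 2) * Real.log (2 / (κ * lam)) := by ring
      rw [e6]
      have h0 := Real.sqrt_nonneg κ
      calc (k * (4 * C)) * (Real.sqrt κ / 2) * Real.log (2 / (κ * lam))
          ≤ 1 * (Real.sqrt κ / 2) * Real.log (2 / (κ * lam)) := by gcongr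
        _ ≤ Real.sqrt (κ / 2) * Real.log (2 / (κ * lam)) := by
            rw [one_mul]
            exact mul_le_mul_of_nonneg_right hsq hX.le

end Pool.Agent.Y663.Mf
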