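import Pool.Agent.Y663.Tr
import Pool.Agent.Y663.Mf

/-! Dimension three: the theorem for the uniform law (helper663). -/

set_option autoImplicit false

open scoped BigOperators ENNReal
open MeasureTheory

namespace Pool.Agent.Y663.Th3

open Pool.Agent.Y663.Tr

theorem result (η : ℝ) (hη : 0 < η) (hη' : η ≤ 1) :
    ∃ k K : ℝ, 0 < k ∧ 0 < K ∧ ∀ c : ℝ, 0 < c → c ≤ k → ∃ Es : ℝ, |Es| ≤ c ∧
      (∀ (L : ℕ) [NeZero L], (L : ℝ) * (c ^ 2 * Real.log (1 / c)) ≤ k →
        ∃ G : Set (T 3 L → ℝ), MeasurableSet G ∧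
          1 - c ≤ (Measure.pi fun _ : T 3 L => unif c).real G ∧
          ∀ ω ∈ G, FlatAt η K Es ω) ∧
      ∀ κ : ℝ, K * c ^ 4 * Real.log (1 / c) ^ 2 ≤ κ → κ ≤ 1 →
        ∀ᵐ ω ∂(Measure.infinitePi fun _ : Fin 3 → ℤ => unif c),
          Localized (H ω) {E | E ≤ Es - κ ∨ 12 - Es + κ ≤ E}
            (k * Real.sqrt κ / Real.log (2 / (κ * c))) := by
  have hP1 : IsProbabilityMeasure (unif 1) := unif_prob 1 one_pos
  obtain ⟨k, K, hk, hk4, hK, HF⟩ := Mf.fin3 (1 + 4 * 1 ^ 2) (by norm_num) η hη hη'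
  refine ⟨k, K, hk, hK, ?_⟩
  intro c hc hck
  obtain ⟨Es, hEs, H1, H2⟩ := HF (unif 1) unif_supp unif_reg c hc hck
  refine ⟨Es, hEs, ?_, ?_⟩
  · intro L _ hL
    obtain ⟨G, hG, hP, hflat⟩ := H1 L hL
    obtain ⟨G', hG', hP', hV⟩ := transportT 3 L c hc G hG
    refine ⟨G', hG', by rw [hP']; exact hP, fun ω hω => ?_⟩
    obtain ⟨V, hVG, rfl⟩ := hV ω hω
    obtain ⟨E0, ψ, h1, h2, h3⟩ := hflat V hVG
    exact ⟨E0, ψ, h1, h2, fun x => by rw [← h3 x, ← HT_eq]⟩
  · intro κ hκ hκ1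
    have hc1 : c < 1 := by linarith
    have hl : 0 < Real.log (1 / c) := Real.log_pos (by rw [lt_div_iff₀ hc]; linarith)
    have hκ0 : 0 < κ := lt_of_lt_of_le (by positivity) hκ
    have hbase : 2 ≤ 2 / (κ * c) := by
      rw [le_div_iff₀ (by positivity)]
      have : κ * c ≤ 1 := by nlinarith
      linarith
    have hX : 0 < Real.log (2 / (κ * c)) := Real.log_pos (by linarith)
    have h1 := H2 κ hκ hκ1
    have h2 := transport 3 c hc (Es - κ) (k * Real.sqrt κ / Real.log (2 / (κ * c)))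
      (by positivity) (by
        filter_upwards [h1] with ω hω
        have e : Es - κ - 2 * ((3 : ℕ) : ℝ) = Es - 2 * ((3 : ℕ) : ℝ) - κ := by ring
        rw [e]
        exact hω)
    filter_upwards [h2] with ω hω
    have e : {E : ℝ | E ≤ Es - κ ∨ 12 - Es + κ ≤ E} =
        {E | E ≤ Es - κ ∨ 4 * ((3 : ℕ) : ℝ) - (Es - κ) ≤ E} := by
      ext E
      constructor
      · rintro (h | h)
        · exact Or.inl h
        · refine Or.inr ?_
          push_cast
          linarith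
      · rintro (h | h)
        · exact Or.inl h
        · refine Or.inr ?_
          push_cast at h
          linarith
    rw [e]
    exact hω

end Pool.Agent.Y663.Th3
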